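import Pool.Agent.Lib.MP_1929a6_lc.Statement

/-!
# Definitions for the statement: topological groups in a model of `ZFC`

All notions are written out in terms of the membership relation `E` of the model.  Ordered pairs,
functions and natural numbers are those of `Pool.Agent.Lib.MP_1929a6_lc.Statement`.
-/

universe u

namespace Pool.Agent.Lib.MP_1ab623_gt

open Pool.Agent.ZF Pool.Agent.Lib.MP_1929a6_lc

variable {M : Type u} (E : M → M → Prop)

/-- The axioms of `ZFC`: those of `ZF`, and the axiom of choice: for every set `F` of nonempty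
pairwise disjoint sets there is a set `C` that has exactly one element in common with each
element of `F`. -/
structure IsZFC : Prop where
  zf : IsZF E
  choice : ∀ F, (∀ x, E x F → ∃ t, E t x) →
    (∀ x y t, E x F → E y F → E t x → E t y → x = y) →
    ∃ C, ∀ x, E x F → ∃! t, E t C ∧ E t x

/-- `A` is a subset of `B`. -/
def Sub (A B : M) : Prop := ∀ x, E x A → E x B

/-- `w` is the set of natural numbers. -/
def IsOmega (w : M) : Prop := ∀ n, E n w ↔ IsNatural E n

/-- `D` is the product `A × B`. -/
def IsProd (D A B : M) : Prop := ∀ p, E p D ↔ ∃ x y, E x A ∧ E y B ∧ IsPair E p x y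

/-- `o (x, y) = z`. -/
def Op (o x y z : M) : Prop := ∃ p, IsPair E p x y ∧ Maps E o p z

/-- `(G, o)` is a group with unit `e`. -/
structure IsGroup (G o e : M) : Prop where
  operation : ∃ D, IsProd E D G G ∧ IsFunction E o D G
  assoc : ∀ x y z a b c, Op E o x y a → Op E o a z c → Op E o y z b → Op E o x b c
  unit_mem : E e G
  unit : ∀ x, E x G → Op E o e x x ∧ Op E o x e x
  inverse : ∀ x, E x G → ∃ y, E y G ∧ Op E o x y e ∧ Op E o y x e

/-- `τ` is a topology on `X`: the set of open sets. -/
structure IsTopology (X τ : M) : Prop where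
  subset : ∀ U, E U τ → Sub E U X
  whole : E X τ
  inter : ∀ U V W, E U τ → E V τ → (∀ t, E t W ↔ E t U ∧ E t V) → E W τ
  union : ∀ S W, Sub E S τ → (∀ t, E t W ↔ ∃ U, E U S ∧ E t U) → E W τ

/-- The operation `o` is continuous. -/
def ContinuousOp (o τ : M) : Prop :=
  ∀ x y z U, Op E o x y z → E U τ → E z U → ∃ A B, E A τ ∧ E B τ ∧ E x A ∧ E y B ∧
    ∀ x' y' z', E x' A → E y' B → Op E o x' y' z' → E z' U

/-- The inversion of the group with operation `o` and unit `e` is continuous. -/
def ContinuousInv (o e τ : M) : Prop :=
  ∀ x y U, Op E o x y e → E U τ → E y U → ∃ A, E A τ ∧ E x A ∧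
    ∀ x' y', E x' A → Op E o x' y' e → E y' U

/-- The topology `τ` on `X` is Hausdorff. -/
def Hausdorff (X τ : M) : Prop :=
  ∀ x y, E x X → E y X → x ≠ y → ∃ A B, E A τ ∧ E B τ ∧ E x A ∧ E y B ∧
    ∀ t, ¬ (E t A ∧ E t B)

/-- The topology `τ` on `X` is countably compact: for every cover of `X` by open sets
`u 0, u 1, ...` there is a natural number `n` such that the sets `u k`, `k < n`, cover `X`
(the natural numbers are von Neumann numbers, `w` is the set of all of them, and `k < n` means
that `k` is an element of `n`). -/
def CountablyCompact (w X τ : M) : Prop :=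
  ∀ u, IsFunction E u w τ → (∀ x, E x X → ∃ n U, Maps E u n U ∧ E x U) →
    ∃ n, E n w ∧ ∀ x, E x X → ∃ k U, E k n ∧ Maps E u k U ∧ E x U

/-- The sequence `s` converges to `x`: every open set that contains `x` contains all `s k` with
`k > n`, for some natural number `n`. -/
def ConvergesTo (w τ s x : M) : Prop :=
  ∀ U, E U τ → E x U → ∃ n, E n w ∧ ∀ k y, E n k → Maps E s k y → E y U

/-- The topology `τ` on `X` is sequential: if a subset `A` of `X` contains all limits of
sequences of its points, then its complement `U` is open. -/
def IsSequential (w X τ : M) : Prop :=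
  ∀ A, Sub E A X → (∀ s x, IsFunction E s w A → E x X → ConvergesTo E w τ s x → E x A) →
    ∀ U, (∀ t, E t U ↔ E t X ∧ ¬ E t A) → E U τ

/-- The topology `τ` on `X` is Frechet-Urysohn: if every open set that contains the point `x`
meets `A`, then some sequence of points of `A` converges to `x`. -/
def FrechetUrysohn (w X τ : M) : Prop :=
  ∀ A x, Sub E A X → E x X → (∀ U, E U τ → E x U → ∃ a, E a A ∧ E a U) →
    ∃ s, IsFunction E s w A ∧ ConvergesTo E w τ s x

/-- `G`, with operation `o`, unit `e` and topology `τ`, is a Hausdorff topological group that is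
countably compact and sequential but not Frechet-Urysohn. -/
structure IsExample (w G o e τ : M) : Prop where
  group : IsGroup E G o e
  topology : IsTopology E G τ
  continuousOp : ContinuousOp E o τ
  continuousInv : ContinuousInv E o e τ
  hausdorff : Hausdorff E G τ
  countablyCompact : CountablyCompact E w G τ
  sequential : IsSequential E w G τ
  notFrechetUrysohn : ¬ FrechetUrysohn E w G τ

end Pool.Agent.Lib.MP_1ab623_gt
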