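import Pool.Agent.Lib.MP_1ab623_gt.Sys
import Pool.Agent.Lib.MP_1ab623_gt.Statement
import Pool.Agent.SymExt.Top.Choice
import Pool.Agent.SymExt.ToZF

/-!
# The model of `ZFC`
-/

set_option linter.unusedSectionVars false
set_option linter.unusedVariables false
set_option linter.unusedSimpArgs false

universe u

namespace Pool.Agent.Lib.MP_1ab623_gt

open Pool.Agent.ZF Pool.Agent.Lib.MP_1929a6_lc Pool.Agent.SymExt

section conv

variable {M : Type u} (E : M → M → Prop)

theorem isOP_prop (hE : IsZF E) (z x y : M) : (propLg E).isOP z x y ↔ IsPair E z x y := by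
  simp only [Lg.isOP, Lg.isPair, prop_all, prop_and, prop_ex, prop_iff, prop_or, prop_mem,
    prop_eq]
  unfold IsPair
  constructor
  · rintro ⟨u, v, hu, hv, hz⟩ t
    rw [hz]
    refine or_congr ⟨?_, fun h => hE.extensionality _ _ fun w => ?_⟩
      ⟨?_, fun h => hE.extensionality _ _ fun w => ?_⟩
    · rintro rfl w
      rw [hu]; tauto
    · rw [h, hu]; tauto
    · rintro rfl w
      exact hv w
    · rw [h, hv]
  · intro h
    obtain ⟨u, hu⟩ := hE.pairing x x
    obtain ⟨v, hv⟩ := hE.pairing x y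
    refine ⟨u, v, hu, hv, fun t => ?_⟩
    rw [h]
    refine or_congr ⟨fun h => hE.extensionality _ _ fun w => ?_, ?_⟩
      ⟨fun h => hE.extensionality _ _ fun w => ?_, ?_⟩
    · rw [h, hu]; tauto
    · rintro rfl w
      rw [hu]; tauto
    · rw [h, hv]
    · rintro rfl w
      exact hv w

theorem app_prop (hE : IsZF E) (f x y : M) : (propLg E).app f x y ↔ Maps E f x y := by
  simp only [Lg.app, prop_and, prop_ex, prop_mem, isOP_prop E hE]
  unfold Maps
  exact exists_congr fun p => and_comm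

theorem pair_fst (hE : IsZF E) {p x y x' y' : M} (h : IsPair E p x y) (h' : IsPair E p x' y') :
    x = x' := by
  have h4 := (isOP_prop E hE _ _ _).2 h
  have h5 := (isOP_prop E hE _ _ _).2 h'
  simp only [Lg.isOP, Lg.isPair, prop_all, prop_and, prop_ex, prop_iff, prop_or, prop_mem,
    prop_eq] at h4 h5
  obtain ⟨u, v, hu, hv, hz⟩ := h4
  obtain ⟨u', v', hu', hv', hz'⟩ := h5
  have h6 : ∀ t, (t = u ∨ t = v) ↔ (t = u' ∨ t = v') := fun t =>
    (hz t).symm.trans (hz' t)
  rcases (h6 u).1 (Or.inl rfl) with h | h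
  · have := (hu x).2 (Or.inl rfl)
    rw [h, hu'] at this
    tauto
  · have := (hv' x').2 (Or.inl rfl)
    rw [← h, hu] at this
    tauto

theorem isFun_prop (hE : IsZF E) (f A B : M) : (propLg E).isFun f A B ↔ IsFunction E f A B := by
  simp only [Lg.isFun, prop_all, prop_imp, prop_and, prop_ex, prop_iff, prop_mem, prop_eq,
    isOP_prop E hE, app_prop E hE]
  unfold IsFunction
  refine and_congr_right fun h1 => ?_
  constructor
  · rintro ⟨h2, h3⟩ x hx
    obtain ⟨y, hy⟩ := h2 x hx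
    exact ⟨y, hy, fun y' hy' => h3 x y' y ⟨hy', hy⟩⟩
  · intro h2
    refine ⟨fun x hx => (h2 x hx).exists, fun x y y' h => ?_⟩
    obtain ⟨p, hp, hpf⟩ := h.1
    obtain ⟨x', y'', hx', _, hp'⟩ := h1 p hpf
    have hx : E x A := by rw [pair_fst E hE hp hp']; exact hx'
    exact (h2 x hx).unique h.1 h.2

theorem ap2_prop (hE : IsZF E) (f x y z : M) : (propLg E).ap2 f x y z ↔ Op E f x y z := by
  simp only [Lg.ap2, prop_and, prop_ex, isOP_prop E hE, app_prop E hE]
  exact Iff.rfl

theorem isProd_prop (hE : IsZF E) (D A B : M) : (propLg E).isProd D A B ↔ IsProd E D A B := by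
  simp only [Lg.isProd, prop_all, prop_iff, prop_and, prop_ex, prop_mem, isOP_prop E hE]
  exact Iff.rfl

theorem sub_prop (A B : M) : (propLg E).sub A B ↔ Sub E A B := by
  simp only [Lg.sub, prop_all, prop_imp, prop_mem]
  exact Iff.rfl

theorem exists_succ (hE : IsZF E) (m : M) : ∃ s, ∀ z, E z s ↔ E z m ∨ z = m := by
  obtain ⟨p, hp⟩ := hE.pairing m m
  obtain ⟨q, hq⟩ := hE.pairing m p
  obtain ⟨u, hu⟩ := hE.union q
  refine ⟨u, fun z => ?_⟩
  rw [hu]
  constructor
  · rintro ⟨y, hy, hyq⟩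
    rcases (hq y).1 hyq with rfl | rfl
    · exact Or.inl hy
    · right
      rcases (hp z).1 hy with h | h <;> exact h
  · rintro (h | rfl)
    · exact ⟨m, h, (hq m).2 (Or.inl rfl)⟩
    · exact ⟨p, (hp z).2 (Or.inl rfl), (hq p).2 (Or.inr rfl)⟩

theorem isOm_prop (hE : IsZF E) (w : M) : (propLg E).isOm w ↔ IsOmega E w := by
  simp only [Lg.isOm, Lg.indv, Lg.empty, Lg.adj, prop_all, prop_imp, prop_and, prop_ex, prop_iff,
    prop_or, prop_neg, prop_mem, prop_eq]
  unfold IsOmega IsNatural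
  refine forall_congr' fun n => iff_congr Iff.rfl (forall_congr' fun X => ?_)
  constructor
  · intro h h1 h2
    refine h ⟨?_, fun z hz => ?_⟩
    · obtain ⟨x, ⟨e, _, he⟩, _⟩ := hE.infinity
      exact ⟨e, he, h1 e he⟩
    · obtain ⟨s, hs⟩ := exists_succ E hE z
      exact ⟨s, h2 z s hz hs, hs⟩
  · rintro h ⟨⟨e, he, heX⟩, h2⟩
    refine h (fun e' he' => ?_) (fun m s hm hs => ?_)
    · have : e' = e := hE.extensionality _ _ fun z => iff_of_false (he' z) (he z)
      rw [this]; exact heX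
    · obtain ⟨s', hs', hs''⟩ := h2 m hm
      have : s = s' := hE.extensionality _ _ fun z => (hs z).trans (hs'' z).symm
      rw [this]; exact hs'

theorem conv_prop (hE : IsZF E) (w τ s x : M) :
    (propLg E).conv w τ s x ↔ ConvergesTo E w τ s x := by
  simp only [Lg.conv, prop_all, prop_imp, prop_and, prop_ex, prop_mem, app_prop E hE, and_imp]
  exact Iff.rfl

theorem fu_prop (hE : IsZF E) (w X τ : M) :
    (propLg E).fu w X τ ↔ FrechetUrysohn E w X τ := by
  simp only [Lg.fu, Lg.meet, prop_all, prop_imp, prop_and, prop_ex, prop_mem, sub_prop,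
    isFun_prop E hE, conv_prop E hE, and_imp]
  exact Iff.rfl

theorem sq_prop (hE : IsZF E) (w X τ : M) :
    (propLg E).sq w X τ → IsSequential E w X τ := by
  simp only [Lg.sq, prop_all, prop_imp, prop_and, prop_ex, prop_iff, prop_neg, prop_mem,
    sub_prop, isFun_prop E hE, conv_prop E hE, and_imp]
  intro h A hA hs U hU
  obtain ⟨V, hV, hVt⟩ := h A hA hs
  have : U = V := hE.extensionality _ _ fun t => (hU t).trans (hVt t).symm
  rw [this]; exact hV

theorem cc_prop (hE : IsZF E) (w X τ : M) :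
    (propLg E).cc w X τ → CountablyCompact E w X τ := by
  simp only [Lg.cc, prop_all, prop_imp, prop_and, prop_ex, prop_mem,
    isFun_prop E hE, app_prop E hE, and_imp]
  exact id

theorem t2_prop (X τ : M) : (propLg E).t2 X τ → Hausdorff E X τ := by
  simp only [Lg.t2, prop_all, prop_imp, prop_and, prop_ex, prop_neg, prop_eq, prop_mem, and_imp]
  exact id

theorem conti_prop (hE : IsZF E) (o e τ : M) : (propLg E).conti o e τ → ContinuousInv E o e τ := by
  simp only [Lg.conti, prop_all, prop_imp, prop_and, prop_ex, prop_mem, ap2_prop E hE, and_imp]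
  exact id

theorem cont2_prop (hE : IsZF E) (o τ : M) : (propLg E).cont2 o τ → ContinuousOp E o τ := by
  simp only [Lg.cont2, prop_all, prop_imp, prop_and, prop_ex, prop_mem, ap2_prop E hE, and_imp]
  exact id

theorem isTop_prop (X τ : M) : (propLg E).isTop X τ → IsTopology E X τ := by
  simp only [Lg.isTop, prop_all, prop_imp, prop_and, prop_ex, prop_iff, prop_mem, sub_prop,
    and_imp]
  intro h1 h2 h3 h4
  exact ⟨h1, h2, h3, h4⟩

theorem grp_prop (hE : IsZF E) (G o e : M) : (propLg E).grp G o e → IsGroup E G o e := by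
  simp only [Lg.grp, prop_all, prop_imp, prop_and, prop_ex, prop_mem, ap2_prop E hE,
    isProd_prop E hE, isFun_prop E hE, and_imp]
  intro h0 h1 h2 h3 h4
  exact ⟨h0, h1, h2, h3, h4⟩

end conv

/-- the main theorem -/
theorem exists_ZFC_model : ∃ (M : Type) (E : M → M → Prop), IsZFC E ∧
    ∃ w G o e τ : M, IsOmega E w ∧ IsExample E w G o e τ := by
  obtain ⟨M, E, t, hE, _, h⟩ := exists_model (P := Cd) tvF
    (fun _ => Classical.arbitrary _) ⊤
  have hZ := hE.isZF
  have hC := h .choice (fun s => by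
    rw [eval_choice]
    exact forced_choice ⊤) t
  have hT := h .tg (fun s => by
    rw [eval_tg]
    exact gt.forced_tg ⊤) t
  rw [eval_choice] at hC
  rw [eval_tg] at hT
  refine ⟨M, E, ⟨hZ, ?_⟩, ?_⟩
  · simp only [Lg.choice, prop_all, prop_imp, prop_and, prop_ex, prop_mem, prop_eq] at hC
    intro F h1 h2
    obtain ⟨C, h3⟩ := hC F ⟨h1, fun x y t h => h2 x y t h.1.1 h.1.2 h.2.1 h.2.2⟩
    refine ⟨C, fun x hx => ?_⟩
    obtain ⟨t, ht, ht'⟩ := h3 x hx
    exact ⟨t, ht, ht'⟩
  · simp only [Lg.tg, prop_ex, prop_and, prop_neg, isOm_prop E hZ, fu_prop E hZ] at hT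
    obtain ⟨w, G, o, e, τ, h0, h1, h2, h3, h4, h5, h6, h7, h8⟩ := hT
    exact ⟨w, G, o, e, τ, h0, grp_prop E hZ _ _ _ h1, isTop_prop E _ _ h2,
      cont2_prop E hZ _ _ h3, conti_prop E hZ _ _ _ h4, t2_prop E _ _ h5, cc_prop E hZ _ _ _ h6,
      sq_prop E hZ _ _ _ h7, h8⟩

end Pool.Agent.Lib.MP_1ab623_gt
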