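import Pool.Agent.Lib.MP_1ab623_gt.Cond
import Pool.Agent.SymExt.Top.GTForced

/-!
# The generic topology: combinatorial facts
-/

set_option linter.unusedSectionVars false
set_option linter.unusedVariables false

open Set Filter Topology
open Pool.Agent.Results.MP_1ab623_gt.CHCounterexample
open Pool.Agent.SymExt (RO GT decide_seq)

namespace Pool.Agent.Lib.MP_1ab623_gt

/-- functions with countable support -/
def Sg : AddSubgroup (W → ZMod 2) where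
  carrier := {s | {w | s w ≠ 0}.Countable}
  zero_mem' := by simp
  add_mem' := by
    intro a b ha hb
    refine (Set.Countable.union ha hb).mono ?_
    intro w hw
    by_contra hcon
    simp only [Set.mem_union, Set.mem_ofPred_eq, not_or, not_not] at hcon
    exact hw (by rw [Pi.add_apply, hcon.1, hcon.2, add_zero])
  neg_mem' := by
    intro a ha
    refine Set.Countable.mono ?_ ha
    intro w hw hcon
    exact hw (by rw [Pi.neg_apply, hcon, neg_zero])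

/-- the underlying group -/
abbrev ZZ : Type := P × (ℕ → ZMod 2) × Sg

/-- indices of basic neighbourhoods -/
abbrev Ix : Type := Finset X × ℕ × Finset W

/-- basic neighbourhoods -/
def Bg (g : W → Data) (i : Ix) : AddSubgroup ZZ where
  carrier := {u | (∀ p ∈ i.1, u.1 p = 0) ∧ (∀ j < i.2.1, u.2.1 j = 0) ∧
    ∀ w ∈ i.2.2, (g w).2.2 u.1 + u.2.2.1 w = 0}
  zero_mem' := by
    refine ⟨fun _ _ => rfl, fun _ _ => rfl, fun w _ => ?_⟩
    change (g w).2.2 0 + 0 = 0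
    rw [map_zero, add_zero]
  add_mem' := by
    rintro a b ⟨h1, h2, h3⟩ ⟨h1', h2', h3'⟩
    refine ⟨fun p hp => ?_, fun j hj => ?_, fun w hw => ?_⟩
    · change a.1 p + b.1 p = 0
      rw [h1 p hp, h1' p hp, add_zero]
    · change a.2.1 j + b.2.1 j = 0
      rw [h2 j hj, h2' j hj, add_zero]
    · change (g w).2.2 (a.1 + b.1) + (a.2.2.1 w + b.2.2.1 w) = 0
      rw [map_add, add_add_add_comm, h3 w hw, h3' w hw, add_zero]
  neg_mem' := by
    rintro a ⟨h1, h2, h3⟩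
    refine ⟨fun p hp => ?_, fun j hj => ?_, fun w hw => ?_⟩
    · change -a.1 p = 0
      rw [h1 p hp, neg_zero]
    · change -a.2.1 j = 0
      rw [h2 j hj, neg_zero]
    · change (g w).2.2 (-a.1) + -a.2.2.1 w = 0
      rw [map_neg, ← neg_add, h3 w hw, neg_zero]

theorem mem_Bg {g : W → Data} {i : Ix} {u : ZZ} : u ∈ Bg g i ↔ (∀ p ∈ i.1, u.1 p = 0) ∧
    (∀ j < i.2.1, u.2.1 j = 0) ∧ ∀ w ∈ i.2.2, (g w).2.2 u.1 + u.2.2.1 w = 0 := Iff.rfl

theorem Bg_congr {g g' : W → Data} {i : Ix} (h : ∀ w ∈ i.2.2, g w = g' w) :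
    Bg g i = Bg g' i := by
  ext u
  rw [mem_Bg, mem_Bg]
  refine and_congr_right fun _ => and_congr_right fun _ => forall_congr' fun w =>
    forall_congr' fun hw => ?_
  rw [h w hw]

theorem Bg_mono {g : W → Data} {i j : Ix} (h1 : i.1 ⊆ j.1) (h2 : i.2.1 ≤ j.2.1)
    (h3 : i.2.2 ⊆ j.2.2) : Bg g j ≤ Bg g i := by
  intro u hu
  rw [mem_Bg] at hu ⊢
  exact ⟨fun p hp => hu.1 p (h1 hp), fun k hk => hu.2.1 k (hk.trans_le h2),
    fun w hw => hu.2.2 w (h3 hw)⟩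

/-- the data of a condition -/
def Cd.g (c : Cd) : W → Data := fun w => (c.f w).2

/-- `c` decides `i` -/
def dcd (c : Cd) (i : Ix) : Prop := ∀ w ∈ i.2.2, w ∈ c.D

theorem g_eq {p q : Cd} (h : q ≤ p) {w : W} (hw : w ∈ p.D) : q.g w = p.g w := by
  unfold Cd.g
  rw [h.2 w hw]

theorem B_eq {p q : Cd} {i : Ix} (h : q ≤ p) (hi : dcd p i) : Bg q.g i = Bg p.g i :=
  Bg_congr fun w hw => g_eq h (hi w hw)

theorem char2 (a b : ZMod 2) (h : a = b) : a - b = 0 := by rw [h, sub_self]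

theorem z2_cases (a : ZMod 2) : a = 0 ∨ a = 1 := z2 a

theorem neg_z2 (a : ZMod 2) : -a = a := by
  rcases z2 a with h | h <;> subst h <;> decide

theorem sub_z2 (a b : ZMod 2) : a - b = a + b := by rw [sub_eq_add_neg, neg_z2]

theorem sub_P (x y : P) : x - y = x + y := by rw [sub_eq_add_neg, neg_P]

theorem ev_eq {f : ℕ → ZMod 2} {a : ZMod 2} (h : Tendsto f atTop (𝓝 a)) :
    ∀ᶠ k in atTop, f k = a :=
  h.eventually ((isOpen_discrete ({a} : Set (ZMod 2))).mem_nhds rfl)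

/-- convergence from the coordinates -/
theorem ev_Bg {g : W → Data} {i : Ix} {s : ℕ → ZZ} {z : ZZ}
    (h1 : Tendsto (fun k => (s k).1) atTop (𝓝 z.1))
    (h2 : Tendsto (fun k => (s k).2.1) atTop (𝓝 z.2.1))
    (h3 : ∀ w ∈ i.2.2, ∀ᶠ k in atTop, (g w).2.2 (s k).1 + (s k).2.2.1 w =
      (g w).2.2 z.1 + z.2.2.1 w) : ∃ n, ∀ k > n, s k - z ∈ Bg g i := by
  have e1 : ∀ᶠ k in atTop, ∀ p ∈ i.1, (s k).1 p = z.1 p :=
    (Finset.eventually_all i.1).2 fun p _ => ev_eq ((tendsto_pi_nhds.1 h1) p)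
  have e2 : ∀ᶠ k in atTop, ∀ j ∈ Finset.range i.2.1, (s k).2.1 j = z.2.1 j :=
    (Finset.eventually_all _).2 fun j _ => ev_eq ((tendsto_pi_nhds.1 h2) j)
  have e3 := (Finset.eventually_all i.2.2).2 h3
  obtain ⟨n, hn⟩ := eventually_atTop.1 (e1.and (e2.and e3))
  refine ⟨n, fun k hk => ?_⟩
  obtain ⟨a1, a2, a3⟩ := hn k hk.le
  rw [mem_Bg]
  refine ⟨fun p hp => ?_, fun j hj => ?_, fun w hw => ?_⟩
  · exact char2 _ _ (a1 p hp)
  · exact char2 _ _ (a2 j (Finset.mem_range.2 hj))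
  · change (g w).2.2 ((s k).1 - z.1) + ((s k).2.2.1 w - z.2.2.1 w) = 0
    rw [map_sub, sub_add_sub_comm]
    exact char2 _ _ (a3 w hw)

/-- sequential compactness -/
theorem sc (c : Cd) (s : ℕ → ZZ) : ∃ q ≤ c, ∃ φ : ℕ → ℕ, StrictMono φ ∧ ∃ z : ZZ, ∀ r ≤ q,
    ∀ i, dcd r i → ∃ n, ∀ k > n, s (φ k) - z ∈ Bg r.g i := by
  classical
  obtain ⟨x, φ1, hφ1, hx⟩ := SeqCompactSpace.tendsto_subseq (fun k => (s k).1)
  set v : ℕ → P := fun k => (s (φ1 k)).1 + x with hv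
  have hv0 : Tendsto v atTop (𝓝 0) := by
    have : Tendsto v atTop (𝓝 (x + x)) := hx.add tendsto_const_nhds
    rwa [add_self_P] at this
  obtain ⟨c1, hc1, hE, w0, hw0, ht0⟩ := exists_ext c ⟨v, hv0⟩ ∅ Set.countable_empty
  obtain ⟨F, i, hF, hfreq⟩ := (c1.rel w0 hw0).freq
  simp only [ht0] at hfreq
  have hfreq' : ∃ᶠ k in atTop, v k ∈ NN c1.g (insert w0 F) i := by
    rw [NN_insert]
    exact hfreq
  obtain ⟨φ2, hφ2, hv2⟩ := extraction_of_frequently_atTop hfreq'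
  obtain ⟨c2, hc2, hE2, -⟩ := exists_ext c1 default
    (⋃ k, {w | (s k).2.2.1 w ≠ 0}) (Set.countable_iUnion fun k => (s k).2.2.2)
  have : Countable c2.D := c2.cnt.to_subtype
  obtain ⟨z, φ3, hφ3, hz⟩ := SeqCompactSpace.tendsto_subseq
    (fun k => ((s (φ1 (φ2 k))).2.1, fun t : c2.D => (c2.g t).2.2 (s (φ1 (φ2 k))).1 +
      (s (φ1 (φ2 k))).2.2.1 t))
  let y : W → ZMod 2 := fun w => if h : w ∈ c2.D then z.2 ⟨w, h⟩ + (c2.g w).2.2 x else 0
  have hy : y ∈ Sg := by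
    refine Set.Countable.mono ?_ c2.cnt
    intro w hw
    by_contra hcon
    exact hw (dif_neg hcon)
  have hz1 : Tendsto (fun k => (s (φ1 (φ2 (φ3 k)))).2.1) atTop (𝓝 z.1) :=
    (continuous_fst.tendsto z).comp hz
  have hz2 : Tendsto (fun k => fun t : c2.D => (c2.g t).2.2 (s (φ1 (φ2 (φ3 k)))).1 +
      (s (φ1 (φ2 (φ3 k)))).2.2.1 t) atTop (𝓝 z.2) :=
    (continuous_snd.tendsto z).comp hz
  refine ⟨c2, hc2.trans hc1, φ1 ∘ φ2 ∘ φ3, hφ1.comp (hφ2.comp hφ3), (x, z.1, ⟨y, hy⟩),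
    fun r hr i' hi' => ?_⟩
  refine ev_Bg (hx.comp (hφ2.comp hφ3).tendsto_atTop) hz1 ?_
  intro w hw
  have hwr := hi' w hw
  by_cases hwD : w ∈ c2.D
  · have h1 := ev_eq ((tendsto_pi_nhds.1 hz2) ⟨w, hwD⟩)
    filter_upwards [h1] with k hk
    have h2 : y w = z.2 ⟨w, hwD⟩ + (c2.g w).2.2 x := dif_pos hwD
    change (r.g w).2.2 (s (φ1 (φ2 (φ3 k)))).1 + (s (φ1 (φ2 (φ3 k)))).2.2.1 w =
      (r.g w).2.2 x + y w
    rw [g_eq hr hwD, h2, add_left_comm, add_self_z2, add_zero]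
    exact hk
  · have hrc1 : r ≤ c1 := hr.trans hc2
    have hw0w : w0 < w := c2.lt_of_notMem (hc2.1 hw0) hwD
    have h1 : Tendsto (fun k => (r.g w).2.2 (v (φ2 k))) atTop (𝓝 0) := by
      refine tendsto_of_on (sq := fun w => (r.f w).1.1) (g := r.g) (t := w) (r.rel w hwr)
        (F := insert w0 F) (i := i) (v := v ∘ φ2) ?_ ?_ (hv0.comp hφ2.tendsto_atTop)
      · intro a ha
        rcases Finset.mem_insert.1 ha with rfl | ha
        · exact hw0w
        · exact (hF a ha).trans hw0w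
      · intro k
        have h3 : NN r.g (insert w0 F) i = NN c1.g (insert w0 F) i := by
          refine NN_congr (fun a ha => ?_) i
          rcases Finset.mem_insert.1 ha with rfl | ha
          · exact g_eq hrc1 hw0
          · exact g_eq hrc1 (c1.low w0 hw0 a (hF a ha))
        rw [h3]
        exact hv2 k
    have h2 := ev_eq (h1.comp hφ3.tendsto_atTop)
    filter_upwards [h2] with k hk
    have h4 : (s (φ1 (φ2 (φ3 k)))).2.2.1 w = 0 := by
      by_contra hne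
      exact hwD (hE2 (Set.mem_iUnion.2 ⟨_, hne⟩))
    have h5 : y w = 0 := dif_neg hwD
    change (r.g w).2.2 (s (φ1 (φ2 (φ3 k)))).1 + (s (φ1 (φ2 (φ3 k)))).2.2.1 w =
      (r.g w).2.2 x + y w
    rw [h4, h5, add_zero, add_zero]
    have h6 : (r.g w).2.2 (s (φ1 (φ2 (φ3 k)))).1 + (r.g w).2.2 x = 0 := by
      rw [← map_add]
      exact hk
    rw [← sub_z2] at h6
    exact sub_eq_zero.1 h6

/-- exhausting finite sets -/
theorem exists_exh {α : Type} {D : Set α} (hD : D.Countable) : ∃ F : ℕ → Finset α,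
    Monotone F ∧ (∀ j, ∀ s ∈ F j, s ∈ D) ∧ ∀ s ∈ D, ∃ j, s ∈ F j := by
  classical
  rcases D.eq_empty_or_nonempty with he | hne
  · refine ⟨fun _ => ∅, fun _ _ _ => le_rfl, by simp, fun s hs => ?_⟩
    rw [he] at hs
    exact absurd hs (Set.notMem_empty s)
  · obtain ⟨f, hf⟩ := hD.exists_eq_range hne
    refine ⟨fun j => (Finset.range j).image f, ?_, ?_, ?_⟩
    · intro a b hab
      exact Finset.image_subset_image (Finset.range_mono hab)
    · intro j s hs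
      obtain ⟨n, _, rfl⟩ := Finset.mem_image.1 hs
      rw [hf]
      exact Set.mem_range_self n
    · intro s hs
      rw [hf] at hs
      obtain ⟨n, rfl⟩ := hs
      exact ⟨n + 1, Finset.mem_image_of_mem _ (Finset.self_mem_range_succ n)⟩

/-- agreement with `a` on countably many coordinates -/
theorem seq_step (a : ZZ) (A : ZZ → RO Cd) (p : Cd)
    (h1 : ∀ q ≤ p, ∀ i, dcd q i → ∃ r ≤ q, ∃ b, A b r ∧ b - a ∈ Bg q.g i)
    (h2 : ∀ q ≤ p, ∀ (s : ℕ → ZZ) b, (∀ n, A (s n) q) →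
      (∀ r ≤ q, ∀ i, dcd r i → ∃ n, ∀ k > n, s k - b ∈ Bg r.g i) → A b q)
    (q : Cd) (hq : q ≤ p) (D : Set W) (hD : D.Countable) :
    ∃ r ≤ q, ∃ b : ZZ, A b r ∧ b.1 = a.1 ∧ b.2.1 = a.2.1 ∧ ∀ w ∈ D, b.2.2.1 w = a.2.2.1 w := by
  obtain ⟨q0, hq0, hDq, -⟩ := exists_ext q default D hD
  obtain ⟨F, hFm, hFD, hFc⟩ := exists_exh hD
  obtain ⟨S, hSm, -, hSc⟩ := exists_exh (α := X) (D := Set.univ) Set.countable_univ
  let ix : ℕ → Ix := fun n => (S n, n, F n)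
  have hdc : ∀ r ≤ q0, ∀ n, dcd r (ix n) := fun r hr n w hw => hr.1 (hDq (hFD n w hw))
  have hBr : ∀ r ≤ q0, ∀ n, Bg r.g (ix n) = Bg q0.g (ix n) := fun r hr n =>
    B_eq hr (hdc q0 le_rfl n)
  obtain ⟨r, hr, b, hb⟩ := decide_seq cd_closed (fun n b r => A b r ∧ b - a ∈ Bg q0.g (ix n))
    (fun n b _ _ hqp h => ⟨(A b).mono hqp h.1, h.2⟩) q0 (by
      intro n r hr
      obtain ⟨t, ht, b, hb, hba⟩ := h1 r (hr.trans (hq0.trans hq)) (ix n) (hdc r hr n)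
      rw [hBr r hr n] at hba
      exact ⟨t, ht, b, hb, hba⟩)
  obtain ⟨r', hr', φ, hφ, z, hz⟩ := sc r b
  have hr'q0 : r' ≤ q0 := hr'.trans hr
  have hAz : A z r' := h2 r' (hr'q0.trans (hq0.trans hq)) (b ∘ φ) z
    (fun n => (A _).mono hr' (hb (φ n)).1) hz
  have hmem : ∀ n, z - a ∈ Bg q0.g (ix n) := by
    intro n
    obtain ⟨k, hk⟩ := hz r' le_rfl (ix n) (hdc r' hr'q0 n)
    rw [hBr r' hr'q0 n] at hk
    have e1 := hk (max (k + 1) n) (lt_of_lt_of_le (Nat.lt_succ_self k) (le_max_left _ _))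
    have e2 : b (φ (max (k + 1) n)) - a ∈ Bg q0.g (ix n) := by
      have h3 := (hb (φ (max (k + 1) n))).2
      have h4 : n ≤ φ (max (k + 1) n) := (le_max_right _ _).trans (hφ.id_le _)
      exact Bg_mono (hSm h4) h4 (hFm h4) h3
    have e3 : z - a = (b (φ (max (k + 1) n)) - a) - (b (φ (max (k + 1) n)) - z) := by abel
    rw [e3]
    exact (Bg q0.g (ix n)).sub_mem e2 e1
  have hz1 : z.1 = a.1 := by
    funext p'
    obtain ⟨n, hn⟩ := hSc p' (Set.mem_univ _)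
    have := (mem_Bg.1 (hmem n)).1 p' hn
    exact sub_eq_zero.1 this
  have hz2 : z.2.1 = a.2.1 := by
    funext j
    have := (mem_Bg.1 (hmem (j + 1))).2.1 j (Nat.lt_succ_self j)
    exact sub_eq_zero.1 this
  refine ⟨r', hr'q0.trans hq0, z, hAz, hz1, hz2, fun w hw => ?_⟩
  obtain ⟨n, hn⟩ := hFc w hw
  have h5 := (mem_Bg.1 (hmem n)).2.2 w hn
  have h6 : (z - a).1 = 0 := by
    change z.1 - a.1 = 0
    rw [hz1, sub_self]
  rw [h6, map_zero, zero_add] at h5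
  exact sub_eq_zero.1 h5

theorem seq_closed (p : Cd) (a : ZZ) (A : ZZ → RO Cd)
    (h1 : ∀ q ≤ p, ∀ i, dcd q i → ∃ r ≤ q, ∃ b, A b r ∧ b - a ∈ Bg q.g i)
    (h2 : ∀ q ≤ p, ∀ (s : ℕ → ZZ) b, (∀ n, A (s n) q) →
      (∀ r ≤ q, ∀ i, dcd r i → ∃ n, ∀ k > n, s k - b ∈ Bg r.g i) → A b q) : A a p := by
  classical
  refine (A a).dense fun p' hp' => ?_
  obtain ⟨f, hf0, hfQ, hfR⟩ := exists_seq_rel (α := Cd × Set W × ZZ)
    (fun q => q.1 ≤ p' ∧ q.2.1.Countable)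
    (fun _ q q' => q'.1 ≤ q.1 ∧ A q'.2.2 q'.1 ∧ q'.2.2.1 = a.1 ∧ q'.2.2.2.1 = a.2.1 ∧
      (∀ w ∈ q.2.1, q'.2.2.2.2.1 w = a.2.2.1 w) ∧ q.2.1 ⊆ q'.2.1 ∧
      {w | q'.2.2.2.2.1 w ≠ a.2.2.1 w} ⊆ q'.2.1)
    (p', ∅, a) ⟨le_rfl, Set.countable_empty⟩ (by
      rintro n ⟨q, D, b0⟩ ⟨hq, hD⟩
      obtain ⟨r, hr, b, hb, hb1, hb2, hb3⟩ := seq_step a A p h1 h2 q (hq.trans hp') D hD
      refine ⟨(r, D ∪ {w | b.2.2.1 w ≠ a.2.2.1 w}, b), ⟨hr.trans hq, ?_⟩, hr, hb, hb1, hb2, hb3,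
        Set.subset_union_left, Set.subset_union_right⟩
      refine Set.Countable.union hD ((Set.Countable.union b.2.2.2 a.2.2.2).mono ?_)
      intro w hw
      by_contra hcon
      simp only [Set.mem_union, Set.mem_ofPred_eq, not_or, not_not] at hcon
      exact hw (by rw [hcon.1, hcon.2]))
  obtain ⟨d, hd⟩ := cd_closed (fun n => (f n).1) (fun n => (hfR n).1)
  have hdp' : d ≤ p' := (hd 0).trans (hfQ 0).1
  refine ⟨d, hdp', h2 d (hdp'.trans hp') (fun n => (f (n + 1)).2.2) a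
    (fun n => (A _).mono (hd (n + 1)) (hfR n).2.1) ?_⟩
  intro r hr i hi
  have hmono : Monotone (fun n => (f n).2.1) :=
    monotone_nat_of_le_succ fun n => (hfR n).2.2.2.2.2.1
  refine ev_Bg ?_ ?_ ?_
  · exact tendsto_const_nhds.congr fun n => ((hfR n).2.2.1).symm
  · exact tendsto_const_nhds.congr fun n => ((hfR n).2.2.2.1).symm
  · intro w _
    have key : ∀ᶠ k in atTop, (f (k + 1)).2.2.2.2.1 w = a.2.2.1 w := by
      by_cases hex : ∃ n, (f (n + 1)).2.2.2.2.1 w ≠ a.2.2.1 w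
      · obtain ⟨n, hn⟩ := hex
        filter_upwards [eventually_gt_atTop n] with k hk
        have e1 : w ∈ (f (n + 1)).2.1 := (hfR n).2.2.2.2.2.2 hn
        have e2 : w ∈ (f k).2.1 := hmono (Nat.succ_le_of_lt hk) e1
        exact (hfR k).2.2.2.2.1 w e2
      · push Not at hex
        exact Eventually.of_forall hex
    filter_upwards [key] with k hk
    rw [hk, (hfR k).2.2.1]

end Pool.Agent.Lib.MP_1ab623_gt
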