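import Pool.Agent.Results.MP_1ab623_gt.CHCounterexample

/-!
# Countable partial constructions, ordered by extension
-/

set_option linter.unusedSectionVars false
set_option linter.unusedVariables false

open Set Filter Topology
open Pool.Agent.Results.MP_1ab623_gt.CHCounterexample

namespace Pool.Agent.Lib.MP_1ab623_gt

/-- null sequences -/
abbrev T : Type := {I : ℕ → P // Tendsto I atTop (𝓝 0)}

noncomputable instance : Inhabited T := ⟨⟨fun _ => 0, tendsto_const_nhds⟩⟩

/-- the first uncountable ordinal -/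
abbrev W : Type := (Cardinal.aleph 1).ord.ToType

theorem hcount (t : W) : (Set.Iio t).Countable := by
  rw [Cardinal.countable_iff_lt_aleph_one]
  exact Cardinal.mk_Iio_toType_ord_lt t

theorem exists_notMem {D : Set W} (hD : D.Countable) : ∃ w, w ∉ D := by
  by_contra h
  push Not at h
  have h1 : D = Set.univ := Set.eq_univ_of_forall h
  rw [h1, Cardinal.countable_iff_lt_aleph_one, Cardinal.mk_univ, Cardinal.mk_ord_toType] at hD
  exact lt_irrefl _ hD

theorem Rel_congr {sq sq' : W → ℕ → P} {t : W} {g g' : W → Data} {d : Data}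
    (h : ∀ s < t, g s = g' s) (hs : sq t = sq' t) (hr : Rel sq t g d) : Rel sq' t g' d := by
  have h1 := Rel_dep sq t g g' d h hr
  refine ⟨h1.cl, h1.AN, h1.good, h1.cont, h1.one, ?_⟩
  rw [← hs]
  exact h1.freq

/-- a countable partial construction -/
@[ext]
structure Cd where
  D : Set W
  low : ∀ a ∈ D, ∀ b, b < a → b ∈ D
  cnt : D.Countable
  f : W → T × Data
  junk : ∀ w, w ∉ D → f w = default
  rel : ∀ w ∈ D, Rel (fun w => (f w).1.1) w (fun w => (f w).2) (f w).2

instance : PartialOrder Cd where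
  le c c' := c'.D ⊆ c.D ∧ ∀ w ∈ c'.D, c.f w = c'.f w
  le_refl c := ⟨subset_rfl, fun _ _ => rfl⟩
  le_trans a b c h h' := ⟨h'.1.trans h.1, fun w hw => (h.2 w (h'.1 hw)).trans (h'.2 w hw)⟩
  le_antisymm a b h h' := by
    have hD : a.D = b.D := subset_antisymm h'.1 h.1
    refine Cd.ext hD ?_
    funext w
    by_cases hw : w ∈ b.D
    · exact h.2 w hw
    · rw [a.junk w (by rwa [hD]), b.junk w hw]

theorem le_def {c c' : Cd} : c ≤ c' ↔ c'.D ⊆ c.D ∧ ∀ w ∈ c'.D, c.f w = c'.f w := Iff.rfl

noncomputable instance : OrderTop Cd where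
  top := ⟨∅, by simp, Set.countable_empty, fun _ => default, fun _ _ => rfl, by simp⟩
  le_top c := ⟨Set.empty_subset _, by simp⟩

theorem Cd.lt_of_notMem (c : Cd) {a w : W} (ha : a ∈ c.D) (hw : w ∉ c.D) : a < w := by
  by_contra h
  rcases (not_lt.1 h).lt_or_eq with h | h
  · exact hw (c.low a ha w h)
  · subst h
    exact hw ha

/-- the part of a total construction over a countable initial segment -/
noncomputable def mkCd (s : W → T) (g : W → Data)
    (h : ∀ w, Rel (fun w => (s w).1) w g (g w)) (D : Set W) (hlow : ∀ a ∈ D, ∀ b, b < a → b ∈ D)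
    (hcnt : D.Countable) : Cd := by
  classical
  exact
  { D := D
    low := hlow
    cnt := hcnt
    f := fun w => if w ∈ D then (s w, g w) else default
    junk := fun w hw => if_neg hw
    rel := by
      intro w hw
      refine Rel_congr (sq := fun w => (s w).1) (g := g) ?_ ?_ ?_
      · intro a ha
        simp only [if_pos (hlow w hw a ha)]
      · simp only [if_pos hw]
      · simp only [if_pos hw]
        exact h w }

theorem mkCd_f (s : W → T) (g : W → Data) (h) (D : Set W) (hlow hcnt) {w : W} (hw : w ∈ D) :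
    (mkCd s g h D hlow hcnt).f w = (s w, g w) := by
  simp only [mkCd, if_pos hw]

theorem exists_total (c : Cd) (s : W → T) (hs : ∀ w ∈ c.D, s w = (c.f w).1) :
    ∃ g : W → Data, (∀ w ∈ c.D, g w = (c.f w).2) ∧ ∀ w, Rel (fun w => (s w).1) w g (g w) := by
  classical
  have key : ∀ t : W, ∀ g : W → Data, (∀ w < t, w ∈ c.D → g w = (c.f w).2) → t ∈ c.D →
      Rel (fun w => (s w).1) t g (c.f t).2 := by
    intro t g hg ht
    refine Rel_congr (sq := fun w => (c.f w).1.1) (g := fun w => (c.f w).2) ?_ ?_ (c.rel t ht)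
    · intro a ha
      exact (hg a ha (c.low t ht a ha)).symm
    · rw [hs t ht]
  obtain ⟨g, hg⟩ := exists_rec (T := W) (Data := Data)
    (fun t g d => if t ∈ c.D then d = (c.f t).2 else Rel (fun w => (s w).1) t g d)
    (by
      intro t g g' d h hr
      by_cases ht : t ∈ c.D
      · simp only [if_pos ht] at hr ⊢
        exact hr
      · simp only [if_neg ht] at hr ⊢
        exact Rel_dep _ t g g' d h hr)
    (by
      intro t g h
      by_cases ht : t ∈ c.D
      · simp only [if_pos ht]
        exact ⟨_, rfl⟩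
      · simp only [if_neg ht]
        refine exists_next hcount _ (fun w => (s w).2) t g ?_
        intro a ha
        have h1 := h a ha
        by_cases haD : a ∈ c.D
        · simp only [if_pos haD] at h1
          rw [h1]
          refine key a g (fun w hw hwD => ?_) haD
          have h2 := h w (hw.trans ha)
          simp only [if_pos hwD] at h2
          exact h2
        · simp only [if_neg haD] at h1
          exact h1)
  refine ⟨g, fun w hw => ?_, fun w => ?_⟩
  · have h1 := hg w
    simp only [if_pos hw] at h1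
    exact h1
  · have h1 := hg w
    by_cases hw : w ∈ c.D
    · simp only [if_pos hw] at h1
      rw [h1]
      refine key w g (fun a _ haD => ?_) hw
      have h2 := hg a
      simp only [if_pos haD] at h2
      exact h2
    · simp only [if_neg hw] at h1
      exact h1

/-- extension to a larger countable set, with a prescribed sequence at a new place -/
theorem exists_ext (c : Cd) (t : T) (E : Set W) (hE : E.Countable) :
    ∃ q ≤ c, E ⊆ q.D ∧ ∃ w ∈ q.D, (q.f w).1 = t := by
  classical
  obtain ⟨w0, hw0⟩ := exists_notMem c.cnt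
  let s : W → T := fun w => if w ∈ c.D then (c.f w).1 else t
  obtain ⟨g, hg1, hg2⟩ := exists_total c s (fun w hw => by simp only [s, if_pos hw])
  let D : Set W := {a | ∃ b ∈ c.D ∪ E ∪ {w0}, a ≤ b}
  have hDc : D.Countable := by
    have : D = ⋃ b ∈ c.D ∪ E ∪ {w0}, Set.Iic b := by
      ext a
      simp [D]
    rw [this]
    refine Set.Countable.biUnion ((c.cnt.union hE).union (Set.countable_singleton _)) ?_
    intro b _
    rw [← Set.Iio_insert]
    exact (hcount b).insert b
  have hsub : ∀ b ∈ c.D ∪ E ∪ {w0}, b ∈ D := fun b hb => ⟨b, hb, le_rfl⟩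
  have hlow : ∀ a ∈ D, ∀ b, b < a → b ∈ D := by
    rintro a ⟨b', hb', hab⟩ b hb
    exact ⟨b', hb', (hb.le).trans hab⟩
  refine ⟨mkCd s g hg2 D hlow hDc, ⟨?_, ?_⟩, ?_, w0, ?_, ?_⟩
  · intro w hw
    exact hsub w (Or.inl (Or.inl hw))
  · intro w hw
    rw [mkCd_f s g hg2 D hlow hDc (hsub w (Or.inl (Or.inl hw)))]
    refine Prod.ext ?_ (hg1 w hw)
    simp only [s, if_pos hw]
  · intro w hw
    exact hsub w (Or.inl (Or.inr hw))
  · exact hsub w0 (Or.inr rfl)
  · rw [mkCd_f s g hg2 D hlow hDc (hsub w0 (Or.inr rfl))]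
    simp only [s, if_neg hw0]

theorem cd_closed (c : ℕ → Cd) (hc : ∀ n, c (n + 1) ≤ c n) : ∃ d, ∀ n, d ≤ c n := by
  classical
  have hmono : ∀ n k, n ≤ k → c k ≤ c n := by
    intro n k h
    induction k, h using Nat.le_induction with
    | base => exact le_rfl
    | succ k _ ih => exact (hc k).trans ih
  let f : W → T × Data := fun w => if h : ∃ n, w ∈ (c n).D then (c h.choose).f w else default
  have hf : ∀ n, ∀ w ∈ (c n).D, f w = (c n).f w := by
    intro n w hw
    have h : ∃ n, w ∈ (c n).D := ⟨n, hw⟩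
    simp only [f, dif_pos h]
    rcases le_total n h.choose with h1 | h1
    · exact (hmono _ _ h1).2 w hw
    · exact ((hmono _ _ h1).2 w h.choose_spec).symm
  refine ⟨⟨⋃ n, (c n).D, ?_, Set.countable_iUnion fun n => (c n).cnt, f, ?_, ?_⟩, ?_⟩
  · intro a ha b hb
    obtain ⟨n, hn⟩ := Set.mem_iUnion.1 ha
    exact Set.mem_iUnion.2 ⟨n, (c n).low a hn b hb⟩
  · intro w hw
    have h : ¬ ∃ n, w ∈ (c n).D := by
      rintro ⟨n, hn⟩
      exact hw (Set.mem_iUnion.2 ⟨n, hn⟩)
    simp only [f, dif_neg h]
  · intro w hw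
    obtain ⟨n, hn⟩ := Set.mem_iUnion.1 hw
    rw [hf n w hn]
    refine Rel_congr (sq := fun w => ((c n).f w).1.1) (g := fun w => ((c n).f w).2) ?_ ?_
      ((c n).rel w hn)
    · intro a ha
      rw [hf n a ((c n).low w hn a ha)]
    · rw [hf n w hn]
  · intro n
    exact ⟨fun w hw => Set.mem_iUnion.2 ⟨n, hw⟩, fun w hw => hf n w hw⟩

end Pool.Agent.Lib.MP_1ab623_gt
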