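import Pool.Agent.Lib.MP_1ab623_gt.Comb

/-!
# The generic topology: the system
-/

set_option linter.unusedSectionVars false
set_option linter.unusedVariables false

open Set Filter Topology
open Pool.Agent.Results.MP_1ab623_gt.CHCounterexample
open Pool.Agent.SymExt (RO GT decide_seq)

namespace Pool.Agent.Lib.MP_1ab623_gt

/-- the points `y_p` -/
noncomputable def yy (p : X) : ZZ := (e p, Pi.single p.1 1, 0)

/-- the set showing that the topology is not Fréchet–Urysohn -/
def YY : Set ZZ := Set.range yy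

theorem e_tendsto (i : ℕ) : Tendsto (fun n : ℕ => e ((i, n) : X)) atTop (𝓝 0) := by
  rw [tendsto_pi_nhds]
  intro q
  refine tendsto_const_nhds.congr' ?_
  filter_upwards [eventually_gt_atTop q.2] with n hn
  have : q ≠ ((i, n) : X) := by
    intro h
    have := congrArg Prod.snd h
    simp at this
    omega
  simp [e, this]

theorem fu1 (c : Cd) (i : Ix) (hi : dcd c i) : ∃ y ∈ YY, y ∈ Bg c.g i := by
  have h1 : ∀ᶠ n in atTop, ∀ q ∈ i.1, e ((i.2.1, n) : X) q = 0 :=
    (Finset.eventually_all i.1).2 fun q _ =>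
      ev_eq ((tendsto_pi_nhds.1 (e_tendsto i.2.1)) q)
  have h2 : ∀ᶠ n in atTop, ∀ w ∈ i.2.2, (c.g w).2.2 (e ((i.2.1, n) : X)) = 0 := by
    refine (Finset.eventually_all i.2.2).2 fun w hw => ?_
    refine ev_eq ?_
    refine tendsto_of_on (sq := fun w => (c.f w).1.1) (g := c.g) (t := w) (c.rel w (hi w hw))
      (F := ∅) (by simp) (i := i.2.1 + 1) ?_ (e_tendsto i.2.1)
    intro n
    refine Submodule.mem_sup_left ?_
    rw [e_eq_ind, ind_mem_PS]
    intro p hp
    have : p = (i.2.1, n) := by simpa using hp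
    rw [this]
    exact Nat.lt_succ_self i.2.1
  obtain ⟨n, hn1, hn2⟩ := (h1.and h2).exists
  refine ⟨yy (i.2.1, n), ⟨_, rfl⟩, mem_Bg.2 ⟨hn1, ?_, ?_⟩⟩
  · intro j hj
    change (Pi.single i.2.1 1 : ℕ → ZMod 2) j = 0
    exact Pi.single_eq_of_ne hj.ne 1
  · intro w hw
    change (c.g w).2.2 (e ((i.2.1, n) : X)) + 0 = 0
    rw [hn2 w hw, add_zero]

theorem fu2 (c : Cd) (s : ℕ → ZZ) (hs : ∀ n, s n ∈ YY) :
    ∃ q ≤ c, ∃ i, dcd q i ∧ ∀ n, ∃ k > n, s k ∉ Bg q.g i := by
  classical
  by_contra hcon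
  push Not at hcon
  choose p hp using hs
  have h1 : Tendsto (fun n => e (p n)) atTop (𝓝 0) := by
    rw [tendsto_pi_nhds]
    intro x
    obtain ⟨n, hn⟩ := hcon c le_rfl (({x}, 0, ∅) : Ix) (fun w hw => by simp at hw)
    refine tendsto_const_nhds.congr' ?_
    filter_upwards [eventually_gt_atTop n] with k hk
    have h2 := (mem_Bg.1 (hn k hk)).1 x (Finset.mem_singleton_self x)
    rw [← hp k] at h2
    exact h2.symm
  obtain ⟨q, hq, -, w0, hw0, ht0⟩ := exists_ext c ⟨_, h1⟩ ∅ Set.countable_empty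
  have hrel := q.rel w0 hw0
  obtain ⟨F, i, hF, hfreq⟩ := hrel.freq
  obtain ⟨F', i', hF', hgood⟩ := hrel.good F hF i 1
  have hpA : ∃ᶠ k in atTop, p k ∈ AA q.g F' i' ∪ (q.g w0).2.1 := by
    refine hfreq.mono fun k hk => ?_
    simp only [ht0] at hk
    have hk' : ind {p k} ∈ NN q.g F i ⊔ (q.g w0).1 := by
      rw [← e_eq_ind]; exact hk
    have := hgood {p k} (by simp) hk'
    exact this (by simp)
  have hnoA : ∀ w ∈ q.D, ∀ᶠ k in atTop, p k ∉ (q.g w).2.1 := by
    intro w hw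
    obtain ⟨n, hn⟩ := hcon q hq ((∅, 0, {w}) : Ix) (fun a ha => by
      have : a = w := by simpa using ha
      rw [this]; exact hw)
    filter_upwards [eventually_gt_atTop n] with k hk hmem
    have h2 := (mem_Bg.1 (hn k hk)).2.2 w (Finset.mem_singleton_self w)
    rw [← hp k] at h2
    have h3 : (q.g w).2.2 (e (p k)) + 0 = 0 := h2
    have h4 : (q.g w).2.2 (e (p k)) = 1 := (q.rel w hw).one _ hmem
    rw [h4, add_zero] at h3
    exact (one_ne_zero : (1 : ZMod 2) ≠ 0) h3
  have hnoC : ∀ᶠ k in atTop, p k ∉ Col i' := by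
    obtain ⟨n, hn⟩ := hcon q hq ((∅, i', ∅) : Ix) (fun a ha => by simp at ha)
    filter_upwards [eventually_gt_atTop n] with k hk hmem
    have h2 := (mem_Bg.1 (hn k hk)).2.1 (p k).1 hmem
    rw [← hp k] at h2
    have h3 : (Pi.single (p k).1 1 : ℕ → ZMod 2) (p k).1 = 0 := h2
    simp at h3
  have hno : ∀ᶠ k in atTop, p k ∉ AA q.g F' i' ∪ (q.g w0).2.1 := by
    have h7 : ∀ᶠ k in atTop, ∀ s ∈ F', p k ∉ (q.g s).2.1 :=
      (Finset.eventually_all F').2 fun s hs => hnoA s (q.low w0 hw0 s (hF' s hs))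
    filter_upwards [h7, hnoA w0 hw0, hnoC] with k hk1 hk2 hk3 hmem
    rcases hmem with (h | h) | h
    · exact hk3 h
    · simp only [mem_iUnion, exists_prop] at h
      obtain ⟨s, hs, hps⟩ := h
      exact hk1 s hs hps
    · exact hk2 h
  exact (hpA.and_eventually hno).exists.elim fun k hk => hk.2 hk.1

theorem t2_ZZ (c : Cd) (z : ZZ) (hz : z ≠ 0) : ∃ q ≤ c, ∃ i, dcd q i ∧ z ∉ Bg q.g i := by
  by_cases h1 : z.1 = 0
  · by_cases h2 : z.2.1 = 0
    · have h3 : ∃ w, z.2.2.1 w ≠ 0 := by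
        by_contra hcon
        push Not at hcon
        refine hz (Prod.ext h1 (Prod.ext h2 (Subtype.ext (funext hcon))))
      obtain ⟨w, hw⟩ := h3
      obtain ⟨q, hq, hE, -⟩ := exists_ext c default {w} (Set.countable_singleton w)
      refine ⟨q, hq, (∅, 0, {w}), fun a ha => ?_, fun hmem => hw ?_⟩
      · have : a = w := by simpa using ha
        rw [this]
        exact hE rfl
      · have h4 := (mem_Bg.1 hmem).2.2 w (Finset.mem_singleton_self w)
        rw [h1, map_zero, zero_add] at h4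
        exact h4
    · have h3 : ∃ j, z.2.1 j ≠ 0 := by
        by_contra hcon
        push Not at hcon
        exact h2 (funext hcon)
      obtain ⟨j, hj⟩ := h3
      refine ⟨c, le_rfl, (∅, j + 1, ∅), fun a ha => by simp at ha, fun hmem => hj ?_⟩
      exact (mem_Bg.1 hmem).2.1 j (Nat.lt_succ_self j)
  · have h3 : ∃ x, z.1 x ≠ 0 := by
      by_contra hcon
      push Not at hcon
      exact h1 (funext hcon)
    obtain ⟨x, hx⟩ := h3
    refine ⟨c, le_rfl, ({x}, 0, ∅), fun a ha => by simp at ha, fun hmem => hx ?_⟩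
    exact (mem_Bg.1 hmem).1 x (Finset.mem_singleton_self x)

/-- the system of conditions -/
noncomputable def gt : GT ZZ Cd Ix where
  closed := cd_closed
  dcd := dcd
  B := fun c i => Bg c.g i
  dcd_mono := fun h hi w hw => h.1 (hi w hw)
  B_eq := fun h hi => B_eq h hi
  i₀ := (∅, 0, ∅)
  dcd_i₀ := fun p w hw => by simp at hw
  dir := by
    classical
    intro p i j hi hj
    refine ⟨(i.1 ∪ j.1, max i.2.1 j.2.1, i.2.2 ∪ j.2.2), ?_, ?_, ?_⟩
    · intro w hw
      rcases Finset.mem_union.1 hw with h | h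
      · exact hi w h
      · exact hj w h
    · exact Bg_mono Finset.subset_union_left (le_max_left _ _) Finset.subset_union_left
    · exact Bg_mono Finset.subset_union_right (le_max_right _ _) Finset.subset_union_right
  t2 := t2_ZZ
  cc := by
    intro p s
    obtain ⟨q, hq, φ, hφ, z, hz⟩ := sc p s
    refine ⟨q, hq, z, fun r hr i hi n => ?_⟩
    obtain ⟨m, hm⟩ := hz r hr i hi
    refine ⟨φ (max m n + 1), ?_, hm _ (Nat.lt_succ_of_le (le_max_left _ _))⟩
    exact lt_of_lt_of_le (Nat.lt_succ_of_le (le_max_right m n)) (hφ.id_le _)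
  seq := seq_closed
  Y := YY
  fu1 := fu1
  fu2 := fu2

end Pool.Agent.Lib.MP_1ab623_gt
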